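import Pool.Agent.H37.CNE.Stmts

/-!
# Denominators of conductors, board `cne`, row SLN
-/

set_option autoImplicit false

namespace Pool.CND

open Finset Matrix

private theorem sln_ram0 {k L G : Type} [Field k] [Field L] [Algebra k L] [Group G]
    (P : Place k L) (ρ : G →* (L ≃ₐ[k] L)) (g : G) : g ∈ ram P ρ 0 ↔ Fixes P (ρ g) := by
  constructor
  · exact fun h => h.1
  · intro h
    refine ⟨h, fun u _ h1 => ?_⟩
    by_cases e : ρ g u = u
    · exact Or.inl e
    · right
      have h2 : P.Ge u 1 := by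
        have h3 := P.ge_ord u
        rw [h1] at h3
        exact h3
      have h4 := (P.ge_iff (sub_ne_zero.2 e) 1).1 (P.ge_sub (h.ge h2) h2)
      rw [Nat.cast_zero, zero_add]
      exact h4

private theorem sln_det {F : Type} [Field F] (g : SL F) (h : g.1 1 0 = 0) :
    g.1 0 0 * g.1 1 1 = 1 := by
  have h1 : g.1.det = 1 := g.2
  rw [Matrix.det_fin_two, h, mul_zero, sub_zero] at h1
  exact h1

/-- the unipotent upper triangular matrices -/
private def slnU (F : Type) [Field F] : F ≃ {g : SL F | g.1 0 0 = 1 ∧ g.1 1 0 = 0} where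
  toFun b := ⟨⟨!![1, b; 0, 1], by rw [Matrix.det_fin_two_of]; ring⟩, rfl, rfl⟩
  invFun g := g.1.1 0 1
  left_inv b := rfl
  right_inv := by
    rintro ⟨g, h1, h2⟩
    refine Subtype.ext (Subtype.ext ?_)
    have h3 := sln_det g h2
    rw [h1, one_mul] at h3
    ext i j
    fin_cases i <;> fin_cases j
    · exact h1.symm
    · rfl
    · exact h2.symm
    · exact h3.symm

/-- the upper triangular matrices -/
private def slnB (F : Type) [Field F] : Fˣ × F ≃ {g : SL F | g.1 1 0 = 0} where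
  toFun x := ⟨⟨!![(x.1 : F), x.2; 0, ((x.1⁻¹ : Fˣ) : F)], by
    rw [Matrix.det_fin_two_of, Units.mul_inv, mul_zero, sub_zero]⟩, rfl⟩
  invFun g := (⟨g.1.1 0 0, g.1.1 1 1, sln_det g.1 g.2, by
    rw [mul_comm]; exact sln_det g.1 g.2⟩, g.1.1 0 1)
  left_inv x := by
    refine Prod.ext (Units.ext rfl) rfl
  right_inv := by
    rintro ⟨g, h2⟩
    refine Subtype.ext (Subtype.ext ?_)
    ext i j
    fin_cases i <;> fin_cases j
    · rfl
    · rfl
    · exact h2.symm
    · rfl

theorem sln_thm (hSLF : S_SLF) (hSLB : S_SLB) : S_SLN := by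
  intro p k F L _ _ _ _ _ f q m s x y ρ P hp hcp hf hq hF hm hco hSl
  have hb := hSLB p k F L f q m s x y ρ P hp hcp hf hq hF hm hco hSl
  have hfx := hSLF p k F L f q m s x y ρ P hp hcp hf hq hF hm hco hSl
  have hq2 : 2 ≤ q := by
    rw [hq]
    exact le_trans hp.two_le (Nat.le_self_pow (by omega) p)
  have hU : {g : SL F | g.1 0 0 = 1 ∧ g.1 1 0 = 0}.ncard = q := by
    rw [← Nat.card_coe_set_eq, ← Nat.card_congr (slnU F), hF]
  have hB : {g : SL F | g.1 1 0 = 0}.ncard = (q - 1) * q := by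
    rw [← Nat.card_coe_set_eq, ← Nat.card_congr (slnB F), Nat.card_prod, Nat.card_units, hF]
  have h0 : ram P ρ 0 = {g : SL F | g.1 1 0 = 0} := by
    ext g
    rw [sln_ram0, hfx]
    rfl
  have h1 : ∀ i, 1 ≤ i → i ≤ m * (q + 1) →
      ram P ρ i = {g : SL F | g.1 0 0 = 1 ∧ g.1 1 0 = 0} := by
    intro i hi1 hi2
    ext g
    rw [hb i g hi1]
    constructor
    · rintro (h | h)
      · rw [h]
        exact ⟨rfl, rfl⟩
      · exact ⟨h.1, h.2.1⟩
    · exact fun h => Or.inr ⟨h.1, h.2, hi2⟩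
  refine ⟨m * (q + 1), ?_, ?_, ?_⟩
  · intro h
    have h2 : 1 ≤ m * (q + 1) := Nat.mul_pos hm (Nat.succ_pos q)
    rw [h1 _ h2 le_rfl] at h
    have h3 := congrArg Set.ncard h
    rw [hU, Set.ncard_singleton] at h3
    omega
  · ext g
    rw [hb _ g (by omega), Set.mem_singleton_iff]
    constructor
    · rintro (h | h)
      · exact h
      · exact absurd h.2.2 (by omega)
    · exact fun h => Or.inl h
  · rw [h0, hB, Finset.sum_congr rfl fun i hi => by
      rw [h1 i (Finset.mem_Icc.1 hi).1 (Finset.mem_Icc.1 hi).2, hU]]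
    rw [Finset.sum_const, Nat.card_Icc, nsmul_eq_mul, Nat.add_sub_cancel]
    have e1 : ((q - 1 : ℕ) : ℚ) ≠ 0 := by
      rw [Nat.cast_ne_zero]
      omega
    have e2 : (q : ℚ) ≠ 0 := by
      rw [Nat.cast_ne_zero]
      omega
    rw [Nat.cast_mul (q - 1) q, mul_div_mul_right _ _ e2]
    push_cast
    rfl

end Pool.CND
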