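import Pool.Agent.H37.CNE.Stmts

/-!
# Denominators of conductors, board `cne`, row SLU
-/

set_option autoImplicit false

namespace Pool.CND

open Finset Matrix

theorem slu_thm (hUPG : S_UPG) (hSLW : S_SLW) : S_SLU := by
  intro p k F _ _ f q hp hcp hf hq hF c hc
  have hq2 : 2 ≤ q := by
    rw [hq]
    exact le_trans hp.two_le (Nat.le_self_pow (by omega) p)
  haveI : Finite F := Nat.finite_of_card_ne_zero (by omega)
  rcases hUPG p k (SL F) hp hcp c hc with h0 | ⟨W, I, n, h1, h2, h3, h4, h5, h6, h7, h8⟩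
  · exact ⟨0, by rw [h0, mul_zero, Int.cast_zero]⟩
  · obtain ⟨g1, ⟨r, g2⟩, g3⟩ := hSLW p F f q hp hf hq hF W I n h1 h2 h3 h4 h5 h6
    obtain ⟨z, hz⟩ := h7 g1
    by_cases hp2 : p = 2
    · have e1 : Nat.gcd 2 (q - 1) = 1 := by
        have h9 : Odd (q - 1) := by
          have h10 : Even q := by
            rw [hq, hp2]
            exact (even_two).pow_of_ne_zero (by omega)
          obtain ⟨t, ht⟩ := h10
          exact ⟨t - 1, by omega⟩
        exact Nat.coprime_two_left.2 h9
      refine ⟨r * z, ?_⟩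
      rw [e1, Nat.div_one, g2]
      push_cast
      rw [← hz]
      ring
    · have h10 : Odd q := by
        rw [hq]
        exact (hp.odd_of_ne_two hp2).pow
      obtain ⟨t, ht⟩ := h10
      have e1 : Nat.gcd 2 (q - 1) = 2 := Nat.gcd_eq_left ⟨t, by omega⟩
      rcases g3 hp2 with ⟨r', hr'⟩ | ⟨ε, k1, k2, k3, k4⟩
      · refine ⟨r' * z, ?_⟩
        rw [e1, hr']
        push_cast
        rw [← hz]
        ring
      · obtain ⟨z', hz'⟩ := h8 g1 hp2 ⟨ε, k1, k2, k3, k4⟩
        refine ⟨r * z', ?_⟩
        rw [e1]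
        have e2 : (q - 1) / 2 = t := by omega
        rw [e2]
        have e3 : (2 : ℚ) * t = n * r := by
          have e4 : 2 * t = n * r := by omega
          exact_mod_cast e4
        push_cast
        linear_combination (c / 2) * e3 + (r / 2 : ℚ) * hz'

end Pool.CND
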